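import Pool.Agent.Helper38.SP38.Main

/-!
# An upper bound for the spread of `PSL(2,q)`, `q = 3 mod 4`

`result`: for every finite field `F` with `q` elements, `q = 3 mod 4`, `q ≥ 7`, the spread of
`PSL(2,F)` is at most `(q-1)/2 * ⌈log₂ q⌉ + q - 2`.

Method. An element which has no eigenvector commutes with an involution `m`, and involutions are the
pairs `(x, r)`, `r` a nonzero square, with `(x, r)` and `(x', r')` commuting iff
`(x - x')^2 + r + r' = 0` (internal points of a conic, conjugate points). For a fixed `v` the
`(q-1)/2` involutions `(v, r)` (those which interchange the points `v` and `∞` of the projective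
line) are such that for every involution `m` exactly `(q+1)/2` of the `q` values of `v` give an
involution commuting with `m`. Hence `⌈log₂ q⌉` suitable values of `v` leave fewer than `(q-1)/2`
involutions `m`, which are added to the list. The elements with an eigenvector are dealt with by
`(q+1)/2` elements of the split tori, whose fixed points cover the projective line.
-/

namespace Pool.Agent.Results.MP_bdeef4_al.SpreadUpperBound

open Pool.Agent.Helper38.SP

/-- Let `F` be a finite field with `q` elements, `q = 3 mod 4`, `q ≥ 7`. If `k` is such that any
`k` nontrivial elements `x i` of `PSL(2,F)` have a common mate `y` (`⟨x i, y⟩ = PSL(2,F)` for all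
`i`), then `k ≤ (q-1)/2 * ⌈log₂ q⌉ + (q - 2)`. So the spread, the largest such `k`, exists and
satisfies the same inequality. -/
theorem result (F : Type) [Field F] [Fintype F] (hq : Fintype.card F % 4 = 3)
    (h7 : 7 ≤ Fintype.card F) :
    BddAbove {k | HasSpread (Matrix.ProjectiveSpecialLinearGroup (Fin 2) F) k} ∧
      spread (Matrix.ProjectiveSpecialLinearGroup (Fin 2) F) ≤
        (Fintype.card F - 1) / 2 * Nat.clog 2 (Fintype.card F) + (Fintype.card F - 2) := by
  have h := (main F hq h7).1
  refine ⟨⟨_, fun k hk => h k hk⟩, ?_⟩
  exact csSup_le' (fun k hk => h k hk)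

/-- The uniform spread satisfies a slightly better bound. -/
theorem uniform (F : Type) [Field F] [Fintype F] (hq : Fintype.card F % 4 = 3)
    (h7 : 7 ≤ Fintype.card F) :
    uniformSpread (Matrix.ProjectiveSpecialLinearGroup (Fin 2) F) ≤
      (Fintype.card F - 1) / 2 * Nat.clog 2 (Fintype.card F) + (Fintype.card F - 5) / 2 :=
  csSup_le' (fun k hk => (main F hq h7).2 k hk)

end Pool.Agent.Results.MP_bdeef4_al.SpreadUpperBound
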